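import Pool.Agent.Run7.h936.SO.Final

/-!
# Solovay's question, for definable axiomatizations: under `V = L`, every complete second-order
theory with a recursive, or definable, axiomatization is categorical
-/

universe u

open Run7.h936.SO in
/-- Assume `V = L`. Then a complete second-order theory in a finite vocabulary (relation and
function symbols) is categorical if it is recursively axiomatized or, more generally, if it has the
same models as a set of sentences whose set of Gödel numbers is many-one reducible to a set of
natural numbers which is second-order definable over some model of the theory. -/
theorem Pool.Agent.Results.MP_cba9f6_lc.DefinableTheories.result : VeqL.{u} →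
    ∀ (V : Vocab) (T : Set (Formula V)), Complete.{u} T →
      RecursivelyAxiomatized.{u} T ∨ DefinablyAxiomatized.{u} T → Categorical.{u} T :=
  fun h V T h1 h2 => Run7.h936.SO.main h V T (h2.elim (fun h3 => h3.definably h1.1) id) h1
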